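import Pool.Agent.H3.RCR.Stmts

/-!
# Project RCR, module A4: a sphere is connected through its edges
-/

namespace Pool.Agent.H3.RCR.A4

open Relation

theorem star {F : Finset Tri} (hF : Sph F) (P : Tri → Prop)
    (h1 : ∀ a b c, (a, b, c) ∈ F → P (a, b, c) → P (b, c, a))
    (h2 : ∀ a b c d, (a, b, c) ∈ F → (b, a, d) ∈ F → P (a, b, c) → P (b, a, d))
    {a b c : ℕ} (h : (a, b, c) ∈ F) (hP : P (a, b, c)) :
    ∀ p q, (a, p, q) ∈ F → P (a, p, q) := by
  intro p q hpq
  have key : ∀ x, ReflTransGen (fun p q => (a, p, q) ∈ F) b x → ∀ y, (a, x, y) ∈ F →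
      P (a, x, y) := by
    intro x hx
    induction hx with
    | refl =>
      intro y hy
      have := hF.uniq _ _ _ _ h hy
      subst this
      exact hP
    | tail _ hxy ih =>
      rename_i x y
      intro z hz
      have e1 := ih _ hxy
      have e2 := h1 _ _ _ hxy e1
      have e3 := h1 _ _ _ (hF.rot _ _ _ hxy) e2
      exact h2 _ _ _ _ (hF.toPre.rot2 hxy) hz e3
  exact key p (hF.link a b p ⟨c, h⟩ ⟨q, hpq⟩) q hpq

theorem a4 : A4Stmt := by
  intro F hF P h1 h2 s hs t ht hP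
  obtain ⟨a, b, c⟩ := s
  obtain ⟨x, y, z⟩ := t
  have key : ∀ v, ReflTransGen (Adj F) a v → ∀ p q, (v, p, q) ∈ F → P (v, p, q) := by
    intro v hv
    induction hv with
    | refl => exact star hF P h1 h2 hs hP
    | tail _ huv ih =>
      rename_i u w
      obtain ⟨r, hr⟩ := huv
      exact star hF P h1 h2 (hF.rot _ _ _ hr) (h1 _ _ _ hr (ih _ _ hr))
  exact key x (hF.conn a x (mem_verts.2 ⟨b, c, hs⟩) (mem_verts.2 ⟨y, z, ht⟩)) y z ht

end Pool.Agent.H3.RCR.A4
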