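import Pool.Agent.H3.RCR.Stmts
import Pool.Agent.H92.OneP.A1
import Pool.Agent.H92.OneP.A2

/-!
# Project RCR, module A5: every even set of edges is the boundary of a set of faces
-/

namespace Pool.Agent.H3.RCR.A5

open Relation Equiv Equiv.Perm
open Pool.Agent.H74.OneP (HypStmt orb comps Bal a1)
open Pool.Agent.H74.OneP.A2aux (orb_invol)
open Pool.Agent.H74.OneP.A1aux (add_self_zmod2)

/-! ### Generic part -/

section Gen

variable {D : Type} [Fintype D]

theorem card_image_le_orb {p : Perm D} (f : D → ℕ) (h : ∀ d, f (p d) = f d) :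
    (Finset.univ.image f).card ≤ orb p := by
  classical
  have hlift : ∀ a b : D, (SameCycle.setoid p) a b → f a = f b := by
    intro a b hab
    obtain ⟨i, hi⟩ := (show p.SameCycle a b from hab).exists_nat_pow_eq
    rw [← hi]
    clear hi hab
    induction i with
    | zero => rfl
    | succ n ih => rw [pow_succ', Perm.mul_apply, h, ← ih]
  let q : Quotient (SameCycle.setoid p) → ℕ := Quotient.lift f hlift
  have hfin : Fintype (Quotient (SameCycle.setoid p)) := Fintype.ofFinite _
  have : Finset.univ.image f = Finset.univ.image q := by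
    ext v
    simp only [Finset.mem_image, Finset.mem_univ, true_and]
    constructor
    · rintro ⟨a, rfl⟩
      exact ⟨Quotient.mk _ a, rfl⟩
    · rintro ⟨a, rfl⟩
      induction a using Quotient.inductionOn with
      | h a => exact ⟨a, rfl⟩
  rw [this]
  unfold orb
  rw [Nat.card_eq_fintype_card]
  exact Finset.card_image_le

/-- if all cycles of `p` in the class `s` have length at most three -/
theorem le_three_orb {p : Perm D} (h3 : ∀ d, p (p (p d)) = d) : Fintype.card D ≤ 3 * orb p := by
  classical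
  have hfin : Fintype (Quotient (SameCycle.setoid p)) := Fintype.ofFinite _
  have key : (Finset.univ : Finset D).card ≤
      3 * (Finset.univ.image (Quotient.mk (SameCycle.setoid p))).card := by
    refine Finset.card_le_mul_card_image _ 3 ?_
    intro c hc
    obtain ⟨e, -, rfl⟩ := Finset.mem_image.1 hc
    have : (Finset.univ.filter fun d => Quotient.mk (SameCycle.setoid p) d = Quotient.mk _ e) ⊆
        {e, p e, p (p e)} := by
      intro d hd
      simp only [Finset.mem_filter, Finset.mem_univ, true_and] at hd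
      have hs : p.SameCycle e d := (show p.SameCycle d e from Quotient.exact hd).symm
      obtain ⟨i, hi⟩ := hs.exists_nat_pow_eq
      rw [← hi]
      clear hi hs hd
      simp only [Finset.mem_insert, Finset.mem_singleton]
      induction i with
      | zero => exact Or.inl rfl
      | succ n ih =>
        rw [pow_succ', Perm.mul_apply]
        rcases ih with ih | ih | ih
        · rw [ih]; exact Or.inr (Or.inl rfl)
        · rw [ih]; exact Or.inr (Or.inr rfl)
        · rw [ih, h3]; exact Or.inl rfl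
    exact (Finset.card_le_card this).trans Finset.card_le_three
  rw [Finset.card_univ] at key
  refine key.trans (Nat.mul_le_mul_left _ ?_)
  unfold orb
  rw [Nat.card_eq_fintype_card]
  exact Finset.card_le_univ _

theorem comps_le_one (x y : Perm D)
    (h : ∀ s : Set D, (∀ d ∈ s, x d ∈ s) → (∀ d ∈ s, y d ∈ s) → s.Nonempty → s = Set.univ) :
    comps x y ≤ 1 := by
  unfold comps
  rw [Finite.card_le_one_iff_subsingleton]
  refine ⟨fun a b => ?_⟩
  induction a using Quotient.inductionOn with
  | h a =>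
    induction b using Quotient.inductionOn with
    | h b =>
      let S := SameCycle.setoid x ⊔ SameCycle.setoid y
      let s : Set D := {d | S a d}
      have h1 : ∀ d ∈ s, x d ∈ s := fun d hd => S.trans hd
        ((le_sup_left : SameCycle.setoid x ≤ S)
        (show x.SameCycle d (x d) from sameCycle_apply_right.2 (SameCycle.refl _ _)))
      have h2 : ∀ d ∈ s, y d ∈ s := fun d hd => S.trans hd
        ((le_sup_right : SameCycle.setoid y ≤ S)
        (show y.SameCycle d (y d) from sameCycle_apply_right.2 (SameCycle.refl _ _)))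
      have hu : s = Set.univ := h s h1 h2 ⟨a, S.refl a⟩
      have hb : b ∈ s := hu ▸ Set.mem_univ b
      exact Quotient.sound hb

end Gen

/-! ### The permutations of a closed surface -/

section Surf

variable {F : Finset Tri} (hF : Pre F)

/-- the left face of the reverse dart -/
noncomputable def rv (t : F) : F :=
  ⟨(t.1.2.1, t.1.1, (hF.opp t.1.1 t.1.2.1 t.1.2.2 t.2).choose),
    (hF.opp t.1.1 t.1.2.1 t.1.2.2 t.2).choose_spec⟩

theorem rv_eq {a b c d : ℕ} (h : (a, b, c) ∈ F) (h' : (b, a, d) ∈ F) :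
    rv hF ⟨(a, b, c), h⟩ = ⟨(b, a, d), h'⟩ := by
  apply Subtype.ext
  have h1 := (hF.opp a b c h).choose_spec
  have := hF.uniq _ _ _ _ h1 h'
  show ((b, a, _) : Tri) = (b, a, d)
  rw [this]

theorem rv_rv (t : F) : rv hF (rv hF t) = t := by
  obtain ⟨⟨a, b, c⟩, h⟩ := t
  obtain ⟨d, hd⟩ := hF.opp a b c h
  rw [rv_eq hF h hd, rv_eq hF hd h]

/-- reversal of darts -/
noncomputable def xP : Perm F := Function.Involutive.toPerm (rv hF) (rv_rv hF)

theorem xP_eq {a b c d : ℕ} (h : (a, b, c) ∈ F) (h' : (b, a, d) ∈ F) :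
    xP hF ⟨(a, b, c), h⟩ = ⟨(b, a, d), h'⟩ := rv_eq hF h h'

theorem xP_xP (t : F) : xP hF (xP hF t) = t := rv_rv hF t

theorem xP_ne (t : F) : xP hF t ≠ t := by
  obtain ⟨⟨a, b, c⟩, h⟩ := t
  obtain ⟨d, hd⟩ := hF.opp a b c h
  rw [xP_eq hF h hd]
  intro he
  have := congrArg (fun t : F => t.1.1) he
  exact hF.ne a b c h this.symm

/-- rotation of the faces -/
def phi : Perm F where
  toFun t := ⟨(t.1.2.2, t.1.1, t.1.2.1), hF.rot2 t.2⟩
  invFun t := ⟨(t.1.2.1, t.1.2.2, t.1.1), hF.rot _ _ _ t.2⟩
  left_inv t := by apply Subtype.ext; rfl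
  right_inv t := by apply Subtype.ext; rfl

theorem phi_eq {a b c : ℕ} (h : (a, b, c) ∈ F) :
    phi hF ⟨(a, b, c), h⟩ = ⟨(c, a, b), hF.rot2 h⟩ := rfl

end Surf

/-- A5 -/
theorem a5 : A5Stmt := by
  classical
  intro F hS R hsymm hadj hev
  have hF := hS.toPre
  let x : Perm F := xP hF
  let y : Perm F := xP hF * phi hF
  have hxy : ∀ d, x (y d) = phi hF d := fun d => by
    show xP hF (xP hF (phi hF d)) = _
    rw [xP_xP]
  have hxy' : x * y = phi hF := Equiv.ext hxy
  -- y maps (a, b, c) to (a, c, d)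
  have hy : ∀ {a b c d : ℕ} (h : (a, b, c) ∈ F) (h' : (a, c, d) ∈ F),
      y ⟨(a, b, c), h⟩ = ⟨(a, c, d), h'⟩ := by
    intro a b c d h h'
    show xP hF (phi hF _) = _
    rw [phi_eq hF h, xP_eq hF (hF.rot2 h) h']
  have hy1 : ∀ d, (y d).1.1 = d.1.1 := by
    rintro ⟨⟨a, b, c⟩, h⟩
    obtain ⟨d, hd⟩ := hF.adj_symm ⟨b, hF.rot2 h⟩
    rw [hy h hd]
  -- counting
  have e1 : 2 * orb x = Fintype.card F := orb_invol x (xP_xP hF) (xP_ne hF)
  have e2 : (verts F).card ≤ orb y := by
    have := card_image_le_orb (p := y) (fun t : F => t.1.1) hy1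
    refine le_trans (le_of_eq ?_) this
    congr 1
    ext v
    simp only [verts, Finset.mem_image, Finset.mem_univ, true_and]
    constructor
    · rintro ⟨t, ht, rfl⟩; exact ⟨⟨t, ht⟩, rfl⟩
    · rintro ⟨t, rfl⟩; exact ⟨t.1, t.2, rfl⟩
  have e3 : Fintype.card F ≤ 3 * orb (x * y) := by
    rw [hxy']
    exact le_three_orb (fun d => by rfl)
  have e4 : comps x y ≤ 1 := by
    refine comps_le_one x y fun s hx hy' hne => ?_
    have hphi : ∀ d ∈ s, phi hF d ∈ s := fun d hd => by
      rw [← hxy]; exact hx _ (hy' _ hd)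
    obtain ⟨⟨s0, hs0⟩, hs1⟩ := hne
    refine Set.eq_univ_of_forall fun t => ?_
    have hstar : ∀ (a b c : ℕ) (h : (a, b, c) ∈ F), (⟨(a, b, c), h⟩ : F) ∈ s →
        ∀ p q (h' : (a, p, q) ∈ F), (⟨(a, p, q), h'⟩ : F) ∈ s := by
      intro a b c h hm
      have key : ∀ z, ReflTransGen (fun p q => (a, p, q) ∈ F) b z → ∀ w (h' : (a, z, w) ∈ F),
          (⟨(a, z, w), h'⟩ : F) ∈ s := by
        intro z hz
        induction hz with
        | refl =>
          intro w hw
          have := hF.uniq _ _ _ _ h hw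
          subst this
          exact hm
        | tail _ hzw ih =>
          intro w' hw'
          have := hy' _ (ih _ hzw)
          rwa [hy hzw hw'] at this
      intro p q h'
      exact key p (hS.link a b p ⟨c, h⟩ ⟨q, h'⟩) q h'
    obtain ⟨a, b, c⟩ := s0
    obtain ⟨⟨p, q, r⟩, ht⟩ := t
    have key : ∀ v, ReflTransGen (Adj F) a v → ∀ p q (h : (v, p, q) ∈ F),
        (⟨(v, p, q), h⟩ : F) ∈ s := by
      intro v hv
      induction hv with
      | refl => exact hstar a b c hs0 hs1
      | @tail u w _ huv ih =>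
        obtain ⟨z, hz⟩ := huv
        have h1 := ih w z hz
        have h2 := hphi _ (hphi _ h1)
        exact hstar w z u (hF.rot _ _ _ hz) h2
    exact key p (hS.conn a p (mem_verts.2 ⟨b, c, hs0⟩) (mem_verts.2 ⟨q, r, ht⟩)) q r ht
  have hcard : Fintype.card F = F.card := Fintype.card_coe F
  have heu := hS.euler
  obtain ⟨hle, hiff⟩ := a1 F x y
  have heq : orb x + orb y + orb (x * y) = Fintype.card F + 2 * comps x y := by omega
  have hmain := hiff.1 heq
  -- the function
  let h : F → ZMod 2 := fun t => if R t.1.1 t.1.2.1 then 1 else 0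
  have hrev : ∀ d : F, h (x d) = h d := by
    rintro ⟨⟨a, b, c⟩, hh⟩
    obtain ⟨d, hd⟩ := hF.opp a b c hh
    show h (xP hF _) = _
    rw [xP_eq hF hh hd]
    show (if R b a then (1 : ZMod 2) else 0) = if R a b then 1 else 0
    congr 1
    exact propext ⟨hsymm _ _, hsymm _ _⟩
  have hB1 : Bal x h := by
    intro g hg
    refine Finset.sum_involution (fun d _ => x d) ?_ ?_ (fun _ _ => Finset.mem_univ _) ?_
    · intro d _
      rw [hg, hrev, add_self_zmod2]
    · intro d _ _
      exact xP_ne hF d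
    · intro d _
      exact xP_xP hF d
  have hB2 : Bal y h := by
    intro g hg
    -- g is constant around each vertex
    have hgc : ∀ (a b c : ℕ) (h : (a, b, c) ∈ F) (p q : ℕ) (h' : (a, p, q) ∈ F),
        g ⟨(a, p, q), h'⟩ = g ⟨(a, b, c), h⟩ := by
      intro a b c h
      have key : ∀ z, ReflTransGen (fun p q => (a, p, q) ∈ F) b z → ∀ w (h' : (a, z, w) ∈ F),
          g ⟨(a, z, w), h'⟩ = g ⟨(a, b, c), h⟩ := by
        intro z hz
        induction hz with
        | refl =>
          intro w hw
          have := hF.uniq _ _ _ _ h hw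
          subst this
          rfl
        | tail _ hzw ih =>
          intro w' hw'
          rw [← ih _ hzw, ← hy hzw hw', hg]
      intro p q h'
      exact key p (hS.link a b p ⟨c, h⟩ ⟨q, h'⟩) q h'
    have hfib : ∑ d : F, g d * h d = ∑ v ∈ verts F, ∑ d : F with d.1.1 = v, g d * h d := by
      rw [Finset.sum_fiberwise_of_maps_to]
      intro d _
      exact Finset.mem_image.2 ⟨d.1, d.2, rfl⟩
    rw [hfib]
    refine Finset.sum_eq_zero fun v hv => ?_
    obtain ⟨b, c, hbc⟩ := mem_verts.1 hv
    have h1 : ∑ d : F with d.1.1 = v, g d * h d =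
        g ⟨(v, b, c), hbc⟩ * ∑ d : F with d.1.1 = v, h d := by
      rw [Finset.mul_sum]
      refine Finset.sum_congr rfl fun d hd => ?_
      obtain ⟨⟨p, q, r⟩, hd'⟩ := d
      have hv' : p = v := (Finset.mem_filter.1 hd).2
      subst hv'
      rw [hgc p b c hbc q r hd']
    rw [h1]
    have h2 : ∑ d : F with d.1.1 = v, h d = 0 := by
      rw [Finset.sum_ite, Finset.sum_const_zero, add_zero, Finset.sum_const, nsmul_eq_mul, mul_one]
      have h3 : (((Finset.univ.filter fun d : F => d.1.1 = v).filter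
          fun d => R d.1.1 d.1.2.1).card) = Set.ncard {w | R v w} := by
        rw [← Set.ncard_coe_finset]
        refine Set.ncard_congr (fun d _ => d.1.2.1) ?_ ?_ ?_
        · rintro ⟨⟨p, q, r⟩, hd'⟩ hd
          simp only [Finset.coe_filter, Finset.mem_filter, Finset.mem_univ, true_and,
            Set.mem_ofPred_eq] at hd
          show R v q
          rw [← hd.1]; exact hd.2
        · rintro ⟨⟨p, q, r⟩, hd⟩ ⟨⟨p', q', r'⟩, hd'⟩ ha hb hq
          simp only [Finset.coe_filter, Finset.mem_filter, Finset.mem_univ, true_and,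
            Set.mem_ofPred_eq] at ha hb hq
          obtain ⟨rfl, -⟩ := ha
          obtain ⟨rfl, -⟩ := hb
          subst hq
          have := hF.uniq _ _ _ _ hd hd'
          subst this
          rfl
        · intro w hw
          obtain ⟨c, hc⟩ := hadj _ _ hw
          exact ⟨⟨(v, w, c), hc⟩, by simpa using hw, rfl⟩
      rw [h3]
      exact (ZMod.natCast_eq_zero_iff_even).2 (hev v)
    rw [h2, mul_zero]
  obtain ⟨g, hg1, hg2⟩ := hmain h hB1 hB2
  refine ⟨F.attach.filter (fun t => g t = 1) |>.image (fun t => t.1), ?_, ?_, ?_⟩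
  · intro t ht
    obtain ⟨s, -, rfl⟩ := Finset.mem_image.1 ht
    exact s.2
  · intro a b c habc
    obtain ⟨s, hs, he⟩ := Finset.mem_image.1 habc
    have hs' := (Finset.mem_filter.1 hs).2
    obtain ⟨s, hsF⟩ := s
    subst he
    refine Finset.mem_image.2 ⟨⟨(b, c, a), hF.rot _ _ _ hsF⟩, Finset.mem_filter.2
      ⟨Finset.mem_attach _ _, ?_⟩, rfl⟩
    have : phi hF ⟨(b, c, a), hF.rot _ _ _ hsF⟩ = ⟨(a, b, c), hsF⟩ := rfl
    rw [← hg1, hxy, this]
    exact hs'
  · intro a b c d habc hbad
    have hmem : ∀ (t : Tri) (ht : t ∈ F), t ∈ (F.attach.filter (fun t => g t = 1)).image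
        (fun t => t.1) ↔ g ⟨t, ht⟩ = 1 := by
      intro t ht
      rw [Finset.mem_image]
      constructor
      · rintro ⟨s, hs, rfl⟩
        exact (Finset.mem_filter.1 hs).2
      · intro h1
        exact ⟨⟨t, ht⟩, Finset.mem_filter.2 ⟨Finset.mem_attach _ _, h1⟩, rfl⟩
    rw [hmem _ habc, hmem _ hbad]
    have h1 := hg2 ⟨(a, b, c), habc⟩
    have h2 : x ⟨(a, b, c), habc⟩ = ⟨(b, a, d), hbad⟩ := xP_eq hF habc hbad
    rw [h2] at h1
    have h3 : h ⟨(a, b, c), habc⟩ = if R a b then 1 else 0 := rfl
    rw [h3] at h1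
    generalize g ⟨(a, b, c), habc⟩ = u at h1 ⊢
    generalize g ⟨(b, a, d), hbad⟩ = w at h1 ⊢
    by_cases hR : R a b
    · rw [if_pos hR] at h1
      simp only [hR, true_iff]
      revert h1
      revert u w
      decide
    · rw [if_neg hR] at h1
      simp only [hR, false_iff, not_not]
      revert h1
      revert u w
      decide

end Pool.Agent.H3.RCR.A5
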