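import Pool.Agent.H59.RCR.A5

/-!
# Project RCR, module A8: Euler's formula for a side
-/

namespace Pool.Agent.H3.RCR.A8

open Relation Equiv Equiv.Perm
open Pool.Agent.H74.OneP (HypStmt orb comps Bal a1)
open Pool.Agent.H74.OneP.A2aux (orb_invol)
open Pool.Agent.H3.RCR.A5

section

variable {F : Finset Tri} {m : ℕ} (c : ZMod m → ℕ) (S : Finset Tri)

/-- the dart of an element of the closed up surface -/
def dart : ↥S ⊕ ZMod m → ℕ × ℕ
  | Sum.inl t => (t.1.1, t.1.2.1)
  | Sum.inr i => (c (i + 1), c i)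

variable {c S}

theorem dart_inj (hF : Pre F) (hc : Cyc F c) (hS : Side F c S) :
    Function.Injective (dart c S) := by
  have hout : ∀ i, ∃ d, (c (i + 1), c i, d) ∈ F ∧ (c (i + 1), c i, d) ∉ S := fun i =>
    ((hS.jump _ _).2 ⟨i, rfl, rfl⟩).2
  rintro (⟨⟨a, b, z⟩, h⟩ | i) (⟨⟨a', b', z'⟩, h'⟩ | j) he
  · obtain ⟨rfl, rfl⟩ := Prod.mk.inj he
    have := hF.uniq _ _ _ _ (hS.sub h) (hS.sub h')
    subst this
    rfl
  · obtain ⟨h1, h2⟩ := Prod.mk.inj he
    obtain ⟨d, hd, hd'⟩ := hout j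
    have h1' : a = c (j + 1) := h1
    have h2' : b = c j := h2
    subst h1' h2'
    have := hF.uniq _ _ _ _ (hS.sub h) hd
    subst this
    exact absurd h hd'
  · obtain ⟨h1, h2⟩ := Prod.mk.inj he
    obtain ⟨d, hd, hd'⟩ := hout i
    have h1' : a' = c (i + 1) := h1.symm
    have h2' : b' = c i := h2.symm
    subst h1' h2'
    have := hF.uniq _ _ _ _ (hS.sub h') hd
    subst this
    exact absurd h' hd'
  · obtain ⟨h1, h2⟩ := Prod.mk.inj he
    exact congrArg Sum.inr (hc.inj h2)

theorem dart_swap (hF : Pre F) (hS : Side F c S) (d : ↥S ⊕ ZMod m) :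
    ∃ e, dart c S e = (dart c S d).swap := by
  rcases d with ⟨⟨a, b, z⟩, h⟩ | i
  · obtain ⟨d, hd⟩ := hF.opp a b z (hS.sub h)
    by_cases hdS : (b, a, d) ∈ S
    · exact ⟨Sum.inl ⟨_, hdS⟩, rfl⟩
    · obtain ⟨i, rfl, rfl⟩ := (hS.jump a b).1 ⟨⟨z, h⟩, d, hd, hdS⟩
      exact ⟨Sum.inr i, rfl⟩
  · obtain ⟨⟨z, hz⟩, -⟩ := (hS.jump _ _).2 ⟨i, rfl, rfl⟩
    exact ⟨Sum.inl ⟨_, hz⟩, rfl⟩

/-- the reversal -/
noncomputable def xQ (hF : Pre F) (hc : Cyc F c) (hS : Side F c S) : Perm (↥S ⊕ ZMod m) :=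
  Function.Involutive.toPerm (fun d => (dart_swap hF hS d).choose) (fun d => by
    apply dart_inj hF hc hS
    rw [(dart_swap hF hS _).choose_spec, (dart_swap hF hS _).choose_spec, Prod.swap_swap])

theorem dart_xQ (hF : Pre F) (hc : Cyc F c) (hS : Side F c S) (d : ↥S ⊕ ZMod m) :
    dart c S (xQ hF hc hS d) = (dart c S d).swap := (dart_swap hF hS d).choose_spec

/-- the inverse face permutation -/
def phiQ (hS : Side F c S) : Perm (↥S ⊕ ZMod m) where
  toFun := Sum.map (fun t => ⟨(t.1.2.2, t.1.1, t.1.2.1), hS.rot _ _ _ (hS.rot _ _ _ t.2)⟩)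
    (fun i => i + 1)
  invFun := Sum.map (fun t => ⟨(t.1.2.1, t.1.2.2, t.1.1), hS.rot _ _ _ t.2⟩) (fun i => i - 1)
  left_inv t := by
    rcases t with t | i
    · rfl
    · simp
  right_inv t := by
    rcases t with t | i
    · rfl
    · simp

theorem euler_le (hF : Pre F) (hc : Cyc F c) (hS : Side F c S) (hD : DConn S) :
    6 * (verts S).card ≤ S.card + 3 * m + 6 := by
  classical
  have hm : NeZero m := ⟨by have := hc.three; omega⟩
  let x := xQ hF hc hS
  let φ := phiQ hS
  let y := x * φ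
  have hxx : ∀ d, x (x d) = d := fun d => by
    apply dart_inj hF hc hS
    rw [dart_xQ, dart_xQ, Prod.swap_swap]
  have hxne : ∀ d, x d ≠ d := by
    intro d he
    have h1 := dart_xQ hF hc hS d
    have h2 : dart c S (x d) = dart c S d := by rw [he]
    have h3 : (dart c S d).1 ≠ (dart c S d).2 := by
      rcases d with ⟨⟨a, b, z⟩, h⟩ | i
      · exact hF.ne _ _ _ (hS.sub h)
      · exact (hF.adj_ne (hc.adj i)).symm
    rw [h1] at h2
    exact h3 (congrArg Prod.snd h2)
  have hxy : ∀ d, x (y d) = φ d := fun d => hxx _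
  have hxy' : x * y = φ := Equiv.ext hxy
  -- counting
  have e1 : 2 * orb x = Fintype.card (↥S ⊕ ZMod m) := orb_invol x hxx hxne
  have hcard : Fintype.card (↥S ⊕ ZMod m) = S.card + m := by
    rw [Fintype.card_sum, Fintype.card_coe, ZMod.card]
  have e2 : (verts S).card ≤ orb y := by
    have h1 : ∀ d, (dart c S (y d)).1 = (dart c S d).1 := by
      intro d
      show (dart c S (xQ hF hc hS (φ d))).1 = _
      rw [dart_xQ]
      rcases d with ⟨⟨a, b, z⟩, h⟩ | i
      · rfl
      · rfl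
    refine le_trans (Finset.card_le_card ?_) (card_image_le_orb (p := y) (fun d => (dart c S d).1) h1)
    intro v hv
    obtain ⟨a, b, h⟩ := mem_verts.1 hv
    exact Finset.mem_image.2 ⟨Sum.inl ⟨_, h⟩, Finset.mem_univ _, rfl⟩
  have e3 : S.card + 3 ≤ 3 * orb φ := by
    have hfin : Fintype (Quotient (SameCycle.setoid φ)) := Fintype.ofFinite _
    let q : ↥S → Quotient (SameCycle.setoid φ) := fun t => Quotient.mk _ (Sum.inl t)
    have hpow : ∀ (n : ℕ) (t : ↥S), ∃ t' : ↥S, (φ ^ n) (Sum.inl t) = Sum.inl t' ∧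
        (t' = t ∨ t'.1 = (t.1.2.2, t.1.1, t.1.2.1) ∨ t'.1 = (t.1.2.1, t.1.2.2, t.1.1)) := by
      intro n t
      induction n with
      | zero => exact ⟨t, rfl, Or.inl rfl⟩
      | succ n ih =>
        obtain ⟨t', h1, h2⟩ := ih
        rw [pow_succ', Perm.mul_apply, h1]
        refine ⟨⟨(t'.1.2.2, t'.1.1, t'.1.2.1), hS.rot _ _ _ (hS.rot _ _ _ t'.2)⟩, rfl, ?_⟩
        rcases h2 with rfl | h2 | h2
        · exact Or.inr (Or.inl rfl)
        · right; right
          show (t'.1.2.2, t'.1.1, t'.1.2.1) = _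
          rw [h2]
        · left
          apply Subtype.ext
          show (t'.1.2.2, t'.1.1, t'.1.2.1) = _
          rw [h2]
    have key : (Finset.univ : Finset ↥S).card ≤ 3 * (Finset.univ.image q).card := by
      refine Finset.card_le_mul_card_image _ 3 ?_
      intro e he
      obtain ⟨e, -, rfl⟩ := Finset.mem_image.1 he
      have : (Finset.univ.filter fun d => q d = q e) ⊆
          {e, ⟨(e.1.2.2, e.1.1, e.1.2.1), hS.rot _ _ _ (hS.rot _ _ _ e.2)⟩,
            ⟨(e.1.2.1, e.1.2.2, e.1.1), hS.rot _ _ _ e.2⟩} := by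
        intro d hd
        simp only [Finset.mem_filter, Finset.mem_univ, true_and] at hd
        have hs : φ.SameCycle (Sum.inl e) (Sum.inl d) :=
          (show φ.SameCycle (Sum.inl d) (Sum.inl e) from Quotient.exact hd).symm
        obtain ⟨i, hi⟩ := hs.exists_nat_pow_eq
        obtain ⟨t', h1, h2⟩ := hpow i e
        have h3 : t' = d := Sum.inl_injective (h1.symm.trans hi)
        subst h3
        simp only [Finset.mem_insert, Finset.mem_singleton]
        rcases h2 with h2 | h2 | h2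
        · exact Or.inl h2
        · exact Or.inr (Or.inl (Subtype.ext h2))
        · exact Or.inr (Or.inr (Subtype.ext h2))
      exact (Finset.card_le_card this).trans Finset.card_le_three
    rw [Finset.card_univ, Fintype.card_coe] at key
    have h0 : Quotient.mk (SameCycle.setoid φ) (Sum.inr 0) ∉ Finset.univ.image q := by
      intro h
      obtain ⟨e, -, he⟩ := Finset.mem_image.1 h
      have hs : φ.SameCycle (Sum.inl e) (Sum.inr 0) := Quotient.exact he
      obtain ⟨i, hi⟩ := hs.exists_nat_pow_eq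
      obtain ⟨t', h1, -⟩ := hpow i e
      rw [h1] at hi
      cases hi
    have h5 : (Finset.univ.image q).card + 1 ≤ orb φ := by
      rw [← Finset.card_insert_of_notMem h0]
      unfold orb
      rw [Nat.card_eq_fintype_card]
      exact Finset.card_le_univ _
    omega
  have e4 : comps x y ≤ 1 := by
    refine comps_le_one x y fun s hx hy hne => ?_
    have hphi : ∀ d ∈ s, φ d ∈ s := fun d hd => by
      rw [← hxy]; exact hx _ (hy _ hd)
    -- some left element
    have h1 : ∃ t : ↥S, Sum.inl t ∈ s := by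
      obtain ⟨t | i, h⟩ := hne
      · exact ⟨t, h⟩
      · obtain ⟨⟨z, hz⟩, -⟩ := (hS.jump _ _).2 ⟨i, rfl, rfl⟩
        refine ⟨⟨_, hz⟩, ?_⟩
        have : x (Sum.inr i) = Sum.inl ⟨_, hz⟩ := by
          apply dart_inj hF hc hS
          rw [dart_xQ]
          rfl
        rw [← this]
        exact hx _ h
    obtain ⟨t, ht⟩ := h1
    have h2 : ∀ t' : ↥S, Sum.inl t' ∈ s := by
      intro t'
      obtain ⟨_, h⟩ := hD (fun t => ∃ h : t ∈ S, Sum.inl ⟨t, h⟩ ∈ s) (by
          rintro a b z habz ⟨h, hs⟩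
          refine ⟨hS.rot _ _ _ h, ?_⟩
          exact hphi _ (hphi _ hs)) (by
          rintro a b z d habz hbad ⟨h, hs⟩
          refine ⟨hbad, ?_⟩
          have : x (Sum.inl ⟨_, h⟩) = Sum.inl ⟨_, hbad⟩ := by
            apply dart_inj hF hc hS
            rw [dart_xQ]
            rfl
          rw [← this]
          exact hx _ hs) t.1 t.2 t'.1 t'.2 ⟨t.2, ht⟩
      exact h
    refine Set.eq_univ_of_forall fun d => ?_
    rcases d with t' | i
    · exact h2 t'
    · obtain ⟨⟨z, hz⟩, -⟩ := (hS.jump _ _).2 ⟨i, rfl, rfl⟩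
      have : x (Sum.inl ⟨_, hz⟩) = Sum.inr i := by
        apply dart_inj hF hc hS
        rw [dart_xQ]
        rfl
      rw [← this]
      exact hx _ (h2 _)
  obtain ⟨hle, -⟩ := a1 _ x y
  rw [hxy'] at hle
  omega

end

/-- A8 -/
theorem a8 (h6 : A6Stmt) (h7 : A7Stmt) : A8Stmt := by
  classical
  intro F hF m c S hc hS
  have hm : NeZero m := ⟨by have := hc.three; omega⟩
  have hS' := (h6 F hF m c).2 S hS
  have hc' : Cyc F (fun i => c (-i)) := by
    refine ⟨hc.three, fun i j h => neg_injective (hc.inj h), fun i => ?_⟩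
    have := hF.toPre.adj_symm (hc.adj (-(i + 1)))
    convert this using 2
    ring
  obtain ⟨hD, hin, hon⟩ := h7 F hF m c S hc hS
  obtain ⟨hD', -, -⟩ := h7 F hF m _ _ hc' hS'
  have h1 := euler_le hF.toPre hc hS hD
  have h2 := euler_le hF.toPre hc' hS' hD'
  have hun : verts S ∪ verts (F \ S) = verts F := by
    unfold verts
    rw [← Finset.image_union, Finset.union_sdiff_of_subset hS.sub]
  have hint : verts S ∩ verts (F \ S) = Finset.univ.image c := by
    ext v
    simp only [Finset.mem_inter, Finset.mem_image, Finset.mem_univ, true_and]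
    constructor
    · rintro ⟨hv, hv'⟩
      by_contra hn
      obtain ⟨p, q, hpq⟩ := mem_verts.1 hv'
      rw [Finset.mem_sdiff] at hpq
      exact hpq.2 (hin v hv (fun i h => hn ⟨i, h.symm⟩) p q hpq.1)
    · rintro ⟨i, rfl⟩
      exact hon i
  have hcard := Finset.card_union_add_card_inter (verts S) (verts (F \ S))
  rw [hun, hint, Finset.card_image_of_injective _ hc.inj, Finset.card_univ, ZMod.card] at hcard
  have hFS := Finset.card_sdiff_add_card_eq_card hS.sub
  have heu := hF.euler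
  omega

end Pool.Agent.H3.RCR.A8
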