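import Pool.Agent.H3.RCR.Stmts

/-!
# Project RCR, modules G15, G16: the triangulated complement of a disc
-/

namespace Pool.Agent.H3.RCR.G15

open Relation

theorem orient_rot (x y z : Pt) : orient x y z = orient y z x := by
  simp only [orient, dt, Prod.fst_sub, Prod.snd_sub]; ring

theorem real_rot {F : Finset Tri} {o : Tri} {p : ℕ → Pt} (hR : Real F o p) {t : Tri}
    (ht : t ∈ rots o) : orient (p t.1) (p t.2.1) (p t.2.2) < 0 := by
  rcases mem_rots.1 ht with rfl | rfl | rfl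
  · exact hR.neg
  · show orient (p o.2.1) (p o.2.2) (p o.1) < 0
    rw [← orient_rot]; exact hR.neg
  · show orient (p o.2.2) (p o.1) (p o.2.1) < 0
    rw [orient_rot]; exact hR.neg

theorem rots_isV {o t : Tri} (ht : t ∈ rots o) (x : ℕ) : isV x t ↔ isV x o := by
  rcases mem_rots.1 ht with rfl | rfl | rfl
  · rfl
  · show (x = _ ∨ x = _ ∨ x = _) ↔ (x = _ ∨ x = _ ∨ x = _)
    tauto
  · show (x = _ ∨ x = _ ∨ x = _) ↔ (x = _ ∨ x = _ ∨ x = _)
    tauto

/-- `z` strictly inside the outer triangle is to the right of all its sides -/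
theorem inN_rot {p : ℕ → Pt} {o t : Tri} {z : Pt} (ht : t ∈ rots o) (h : InN p o z) :
    orient (p t.1) (p t.2.1) z < 0 := by
  rcases mem_rots.1 ht with rfl | rfl | rfl
  · exact h.1
  · exact h.2.1
  · exact h.2.2

theorem mem_rots_mem {F : Finset Tri} (hF : Pre F) {o t : Tri} (ho : o ∈ F) (ht : t ∈ rots o) :
    t ∈ F := by
  obtain ⟨a, b, c⟩ := o
  rcases mem_rots.1 ht with rfl | rfl | rfl
  · exact ho
  · exact hF.rot _ _ _ ho
  · exact hF.rot2 ho

theorem main (h7 : A7Stmt) (h4 : G4Stmt) (h6 : G6Stmt) (h13 : G13Stmt)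
    (F : Finset Tri) (o : Tri) (p : ℕ → Pt) (b : ℕ) (C : ZMod b → ℕ)
    (D : Finset Tri) (hS : Sph F) (hR : Real F o p) (hC : Cyc F C)
    (hD : Side F (fun i => C (-i)) D) :
    ∃ Y, Sph Y ∧ Real Y o p ∧ D ⊆ Y ∧ Side Y (fun i => C (-i)) D ∧
      ∀ v ∈ verts (Y \ D), (∃ i, v = C i) ∨ (isV v o ∧ v ∉ verts D) := by
  classical
  have hF := hS.toPre
  obtain ⟨g1, g2, g3, g4, g5, -⟩ := h6 F o p hS hR
  have hoF : ∀ x, isV x o → x ∈ verts F := by
    obtain ⟨o1, o2, o3⟩ := o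
    have h := hR.mem
    rintro x (rfl | rfl | rfl)
    · exact mem_verts.2 ⟨_, _, h⟩
    · exact mem_verts.2 ⟨_, _, hF.rot _ _ _ h⟩
    · exact mem_verts.2 ⟨_, _, hF.rot2 h⟩
  have hDF : verts D ⊆ verts F := fun v hv => by
    obtain ⟨x, y, h⟩ := mem_verts.1 hv
    exact mem_verts.2 ⟨x, y, hD.sub h⟩
  let S : Finset ℕ := verts D ∪ {o.1, o.2.1, o.2.2}
  have hSF : S ⊆ verts F := by
    intro v hv
    rcases Finset.mem_union.1 hv with h | h
    · exact hDF h
    · refine hoF v ?_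
      simpa [isV] using h
  have hSo : ∀ x, isV x o → x ∈ S := by
    intro x hx
    refine Finset.mem_union_right _ ?_
    simpa [isV] using hx
  let E : Finset (ℕ × ℕ) := D.image (fun t => (t.1, t.2.1))
  have hE : ∀ e ∈ E, ∃ c, (e.1, e.2, c) ∈ D := by
    intro e he
    obtain ⟨⟨x, y, z⟩, h, rfl⟩ := Finset.mem_image.1 he
    exact ⟨z, h⟩
  obtain ⟨Y, hY, hRY, hvY, hEY⟩ := h13 S p o E hSo hR.neg
    (fun x hx y hy h => g1 x (hSF hx) y (hSF hy) h)
    (fun s hs ho => g2 s (hSF hs) ho)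
    (fun e he => by
      obtain ⟨c, hc⟩ := hE e he
      have hcF := hD.sub hc
      exact ⟨Finset.mem_union_left _ (mem_verts.2 ⟨_, _, hc⟩),
        Finset.mem_union_left _ (mem_verts.2 ⟨_, _, hD.rot _ _ _ hc⟩), hF.ne _ _ _ hcF,
        fun s hs => g3 _ _ s ⟨c, hcF⟩ (hSF hs)⟩)
    (fun e he f hf z hz hz' => by
      obtain ⟨c, hc⟩ := hE e he
      obtain ⟨d, hd⟩ := hE f hf
      rcases g4 _ _ _ _ z ⟨c, hD.sub hc⟩ ⟨d, hD.sub hd⟩ hz hz' with ⟨h1, h2⟩ | ⟨h1, h2⟩
      · exact Or.inl (Prod.ext h1 h2)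
      · exact Or.inr (Prod.ext h1 h2))
  have hEY' : ∀ {x y z : ℕ}, (x, y, z) ∈ D → Adj Y x y := by
    intro x y z h
    exact hEY (x, y) (Finset.mem_image.2 ⟨_, h, rfl⟩)
  have hDY : D ⊆ Y := by
    rintro ⟨x, y, z⟩ ht
    have htF := hD.sub ht
    by_cases hto : (x, y, z) ∈ rots o
    · exact mem_rots_mem hY.toPre hRY.mem hto
    have hpos := hR.pos _ htF hto
    simp only at hpos
    obtain ⟨w, hw⟩ := hEY' ht
    have hwo : (x, y, w) ∉ rots o := by
      intro hr
      have hneg := real_rot hRY hr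
      simp only at hneg
      have hzo : ¬ isV z o := by
        rw [← rots_isV hr]
        rintro (h | h | h)
        · exact (hF.nd htF).2.2 h
        · exact (hF.nd htF).2.1 h.symm
        · have h' : z = w := h
          subst h'
          linarith
      have := inN_rot hr (g2 z (mem_verts.2 ⟨_, _, hF.rot2 htF⟩) hzo)
      simp only at this
      linarith
    have hpos' := hRY.pos _ hw hwo
    simp only at hpos'
    by_cases hzw : z = w
    · rw [hzw]; exact hw
    exfalso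
    have nd := hF.nd htF
    -- at x
    have k1 := h4 Y o p hY.toPre hRY x y w z hw hwo
      (hY.toPre.adj_symm (hEY' (hD.rot _ _ _ (hD.rot _ _ _ ht)))) nd.2.1.symm hzw
    -- at y
    have hwo' : (y, w, x) ∉ rots o := by
      intro hr
      apply hwo
      rcases mem_rots.1 hr with e | e | e
      · have e1 : y = o.1 := congrArg (fun t : Tri => t.1) e
        have e2 : w = o.2.1 := congrArg (fun t : Tri => t.2.1) e
        have e3 : x = o.2.2 := congrArg (fun t : Tri => t.2.2) e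
        rw [e1, e2, e3]; exact mem_rots.2 (Or.inr (Or.inr rfl))
      · have e1 : y = o.2.1 := congrArg (fun t : Tri => t.1) e
        have e2 : w = o.2.2 := congrArg (fun t : Tri => t.2.1) e
        have e3 : x = o.1 := congrArg (fun t : Tri => t.2.2) e
        rw [e1, e2, e3]; exact mem_rots.2 (Or.inl rfl)
      · have e1 : y = o.2.2 := congrArg (fun t : Tri => t.1) e
        have e2 : w = o.1 := congrArg (fun t : Tri => t.2.1) e
        have e3 : x = o.2.1 := congrArg (fun t : Tri => t.2.2) e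
        rw [e1, e2, e3]; exact mem_rots.2 (Or.inr (Or.inl rfl))
    have k2 := h4 Y o p hY.toPre hRY y w x z (hY.rot _ _ _ hw) hwo'
      (hEY' (hD.rot _ _ _ ht)) hzw nd.2.2
    have i1 : dt (p y - p x) (p z - p x) = orient (p x) (p y) (p z) := rfl
    have i2 : dt (p z - p x) (p w - p x) = - orient (p z) (p x) (p w) := by
      simp only [orient, dt, Prod.fst_sub, Prod.snd_sub]; ring
    have i3 : dt (p w - p y) (p z - p y) = - orient (p y) (p z) (p w) := by
      simp only [orient, dt, Prod.fst_sub, Prod.snd_sub]; ring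
    have i4 : dt (p z - p y) (p x - p y) = orient (p x) (p y) (p z) := by
      simp only [orient, dt, Prod.fst_sub, Prod.snd_sub]; ring
    rw [i1, i2] at k1
    rw [i3, i4] at k2
    have hwF : w ∈ verts F := by
      have : w ∈ verts Y := mem_verts.2 ⟨_, _, hY.toPre.rot2 hw⟩
      rw [hvY] at this
      exact hSF this
    refine g5 _ htF w hwF ⟨hpos', ?_, ?_⟩
    · show 0 < orient (p y) (p z) (p w)
      by_contra hcon
      rw [not_lt] at hcon
      exact k2 ⟨by linarith, hpos.le⟩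
    · show 0 < orient (p z) (p x) (p w)
      by_contra hcon
      rw [not_lt] at hcon
      exact k1 ⟨hpos.le, by linarith⟩
  have hjump : ∀ x y, Jump Y D x y ↔ Jump F D x y := by
    intro x y
    constructor
    · rintro ⟨⟨c, hc⟩, d, hd, hd'⟩
      obtain ⟨e, he⟩ := hF.opp x y c (hD.sub hc)
      refine ⟨⟨c, hc⟩, e, he, fun h => ?_⟩
      have := hY.uniq _ _ _ _ hd (hDY h)
      subst this
      exact hd' h
    · rintro ⟨⟨c, hc⟩, d, hd, hd'⟩
      obtain ⟨e, he⟩ := hY.opp x y c (hDY hc)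
      refine ⟨⟨c, hc⟩, e, he, fun h => ?_⟩
      have := hF.uniq _ _ _ _ hd (hD.sub h)
      subst this
      exact hd' h
  refine ⟨Y, hY, hRY, hDY, ⟨hDY, hD.rot, fun x y => (hjump x y).trans (hD.jump x y)⟩, ?_⟩
  intro v hv
  obtain ⟨x, y, hxy⟩ := mem_verts.1 hv
  rw [Finset.mem_sdiff] at hxy
  have hvY' : v ∈ S := by rw [← hvY]; exact mem_verts.2 ⟨x, y, hxy.1⟩
  by_cases hvD : v ∈ verts D
  · left
    by_contra hcon
    have hC' : Cyc F (fun i => C (-i)) := by
      refine ⟨hC.three, fun i j h => neg_injective (hC.inj h), fun i => ?_⟩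
      have := hF.adj_symm (hC.adj (-(i + 1)))
      convert this using 2
      ring
    obtain ⟨-, hin, -⟩ := h7 F hS b _ D hC' hD
    have hin' := hin v hvD (fun i h => hcon ⟨-i, h⟩)
    -- all faces of `Y` at `v` are in `D`
    obtain ⟨q, r, hqr⟩ := mem_verts.1 hvD
    have key : ∀ z, ReflTransGen (fun p q => (v, p, q) ∈ Y) q z → ∃ w, (v, z, w) ∈ D := by
      intro z hz
      induction hz with
      | refl => exact ⟨r, hqr⟩
      | @tail u z _ huz ih =>
        obtain ⟨w, hw⟩ := ih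
        have := hY.uniq _ _ _ _ huz (hDY hw)
        subst this
        obtain ⟨s, hs⟩ := hF.adj_symm ⟨u, hF.rot2 (hD.sub hw)⟩
        exact ⟨s, hin' _ _ hs⟩
    obtain ⟨w, hw⟩ := key x (hY.link v q x ⟨r, hDY hqr⟩ ⟨y, hxy.1⟩)
    have := hY.uniq _ _ _ _ hxy.1 (hDY hw)
    subst this
    exact hxy.2 hw
  · right
    refine ⟨?_, hvD⟩
    rcases Finset.mem_union.1 hvY' with h | h
    · exact absurd h hvD
    · simpa [isV] using h

/-- G15 -/
theorem g15 (h7 : A7Stmt) (h4 : G4Stmt) (h6 : G6Stmt) (h13 : G13Stmt) : G15Stmt := by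
  intro F o p b C D hS hR hC hD ho
  obtain ⟨Y, h1, h2, h3, h4, h5⟩ := main h7 h4 h6 h13 F o p b C D hS hR hC hD
  exact ⟨Y, h1, h2, h3, h4, ho, fun v hv => (h5 v hv).imp id (fun h => h.1)⟩

/-- G16 -/
theorem g16 (h7 : A7Stmt) (h4 : G4Stmt) (h6 : G6Stmt) (h13 : G13Stmt) : G16Stmt := by
  intro F o p b C D hS hR hC hD ho
  obtain ⟨Y, h1, h2, h3, h4, h5⟩ := main h7 h4 h6 h13 F o p b C D hS hR hC hD
  refine ⟨Y, h1, h2, h3, h4, fun v hv => (h5 v hv).resolve_right ?_⟩
  rintro ⟨h, hn⟩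
  apply hn
  obtain ⟨o1, o2, o3⟩ := o
  rcases h with rfl | rfl | rfl
  · exact mem_verts.2 ⟨_, _, ho⟩
  · exact mem_verts.2 ⟨_, _, hD.rot _ _ _ ho⟩
  · exact mem_verts.2 ⟨_, _, hD.rot _ _ _ (hD.rot _ _ _ ho)⟩

end Pool.Agent.H3.RCR.G15
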