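import Pool.Agent.H3.RCR.Stmts

/-!
# Project RCR, module G8: a vertex of degree at most five can be contracted
-/

namespace Pool.Agent.H3.RCR.G8

open Relation

/-! ### Algebra -/

theorem alg4 {s0 s1 s2 s3 D02 D13 : ℝ} (h0 : 0 < s0) (h1 : 0 < s1) (h2 : 0 < s2) (h3 : 0 < s3)
    (hP : D02 * D13 = s0 * s2 - s1 * s3) :
    (0 < s0 + s1 - D02 ∧ 0 < s2 + s3 + D02) ∨ (0 < s1 + s2 - D13 ∧ 0 < s3 + s0 + D13) := by
  by_contra hcon
  rw [not_or, not_and_or, not_and_or, not_lt, not_lt, not_lt, not_lt] at hcon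
  obtain ⟨ha | ha, hb | hb⟩ := hcon
  · have e1 : s0 + s1 ≤ D02 := by linarith
    have e2 : s1 + s2 ≤ D13 := by linarith
    have e3 : (s0 + s1) * (s1 + s2) ≤ D02 * D13 :=
      mul_le_mul e1 e2 (by positivity) (by linarith)
    nlinarith [mul_pos h0 h1, mul_pos h1 h2, mul_pos h1 h3, mul_pos h1 h1]
  · have e1 : s0 + s1 ≤ D02 := by linarith
    have e2 : s3 + s0 ≤ -D13 := by linarith
    have e3 : (s0 + s1) * (s3 + s0) ≤ D02 * (-D13) :=
      mul_le_mul e1 e2 (by positivity) (by linarith)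
    nlinarith [mul_pos h0 h3, mul_pos h0 h1, mul_pos h0 h2, mul_pos h0 h0]
  · have e1 : s2 + s3 ≤ -D02 := by linarith
    have e2 : s1 + s2 ≤ D13 := by linarith
    have e3 : (s2 + s3) * (s1 + s2) ≤ (-D02) * D13 :=
      mul_le_mul e1 e2 (by positivity) (by linarith)
    nlinarith [mul_pos h2 h2, mul_pos h1 h2, mul_pos h2 h3, mul_pos h0 h2]
  · have e1 : s2 + s3 ≤ -D02 := by linarith
    have e2 : s3 + s0 ≤ -D13 := by linarith
    have e3 : (s2 + s3) * (s3 + s0) ≤ (-D02) * (-D13) :=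
      mul_le_mul e1 e2 (by positivity) (by linarith)
    nlinarith [mul_pos h3 h3, mul_pos h3 h2, mul_pos h0 h3, mul_pos h1 h3]

/-- three consecutive ears with positive determinants: one of them is strictly convex -/
theorem alg5 {s0 s1 s2 s3 s4 E0 E1 E2 D42 D03 : ℝ} (h0 : 0 < s0) (h1 : 0 < s1) (h2 : 0 < s2)
    (h3 : 0 < s3) (h4 : 0 < s4) (hE1 : 0 < E1)
    (hP1 : s4 * s1 - E0 * E1 + D42 * s0 = 0) (hP2 : s0 * s2 - E1 * E2 + D03 * s1 = 0)
    (hP3 : s4 * s2 - D42 * D03 - s3 * E1 = 0) :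
    0 < s4 + s0 - E0 ∨ 0 < s0 + s1 - E1 ∨ 0 < s1 + s2 - E2 := by
  by_contra hcon
  rw [not_or, not_or, not_lt, not_lt, not_lt] at hcon
  obtain ⟨ha, hb, hc⟩ := hcon
  have e0 : s4 + s0 ≤ E0 := by linarith
  have e1 : s0 + s1 ≤ E1 := by linarith
  have e2 : s1 + s2 ≤ E2 := by linarith
  have f1 : (s4 + s0) * (s0 + s1) ≤ E0 * E1 := mul_le_mul e0 e1 (by positivity) (by linarith)
  have f2 : (s0 + s1) * (s1 + s2) ≤ E1 * E2 := mul_le_mul e1 e2 (by positivity) (by linarith)
  have g1 : (s4 + s0 + s1) * s0 ≤ D42 * s0 := by nlinarith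
  have g2 : (s0 + s1 + s2) * s1 ≤ D03 * s1 := by nlinarith
  have k1 : s4 + s0 + s1 ≤ D42 := le_of_mul_le_mul_right g1 h0
  have k2 : s0 + s1 + s2 ≤ D03 := le_of_mul_le_mul_right g2 h1
  have k3 : (s4 + s0 + s1) * (s0 + s1 + s2) ≤ D42 * D03 :=
    mul_le_mul k1 k2 (by positivity) (by linarith)
  nlinarith [mul_pos h3 hE1, mul_pos h0 h0, mul_pos h0 h1, mul_pos h0 h2, mul_pos h1 h1,
    mul_pos h1 h2, mul_pos h4 h0, mul_pos h4 h1]

theorem pluck (X Y Z V : Pt) :
    dt X Y * dt Z V - dt X Z * dt Y V + dt X V * dt Y Z = 0 := by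
  simp only [dt]; ring

theorem dt_swap (X Y : Pt) : dt X Y = - dt Y X := by
  simp only [dt]; ring

theorem orient_eq (v x y z : Pt) :
    orient x y z = dt (x - v) (y - v) + dt (y - v) (z - v) - dt (x - v) (z - v) := by
  simp only [orient, dt, Prod.fst_sub, Prod.snd_sub]; ring

theorem orient_rot (x y z : Pt) : orient x y z = orient y z x := by
  simp only [orient, dt, Prod.fst_sub, Prod.snd_sub]; ring

/-- quadrilaterals around `v` -/
theorem quad (v a0 a1 a2 a3 : Pt) (h0 : 0 < orient v a0 a1) (h1 : 0 < orient v a1 a2)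
    (h2 : 0 < orient v a2 a3) (h3 : 0 < orient v a3 a0) :
    (0 < orient a0 a1 a2 ∧ 0 < orient a0 a2 a3) ∨ (0 < orient a1 a2 a3 ∧ 0 < orient a1 a3 a0) := by
  have hP : orient v a0 a2 * orient v a1 a3 =
      orient v a0 a1 * orient v a2 a3 - orient v a1 a2 * orient v a3 a0 := by
    simp only [orient, dt, Prod.fst_sub, Prod.snd_sub]; ring
  have e1 : orient a0 a1 a2 = orient v a0 a1 + orient v a1 a2 - orient v a0 a2 := by
    simp only [orient, dt, Prod.fst_sub, Prod.snd_sub]; ring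
  have e2 : orient a0 a2 a3 = orient v a2 a3 + orient v a3 a0 + orient v a0 a2 := by
    simp only [orient, dt, Prod.fst_sub, Prod.snd_sub]; ring
  have e3 : orient a1 a2 a3 = orient v a1 a2 + orient v a2 a3 - orient v a1 a3 := by
    simp only [orient, dt, Prod.fst_sub, Prod.snd_sub]; ring
  have e4 : orient a1 a3 a0 = orient v a3 a0 + orient v a0 a1 + orient v a1 a3 := by
    simp only [orient, dt, Prod.fst_sub, Prod.snd_sub]; ring
  rw [e1, e2, e3, e4]
  exact alg4 h0 h1 h2 h3 hP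

/-- pentagons around `v`: three consecutive positive determinants give a convex ear -/
theorem pent (v a0 a1 a2 a3 a4 : Pt) (h0 : 0 < orient v a0 a1) (h1 : 0 < orient v a1 a2)
    (h2 : 0 < orient v a2 a3) (h3 : 0 < orient v a3 a4) (h4 : 0 < orient v a4 a0)
    (hE1 : 0 < orient v a0 a2) :
    0 < orient a4 a0 a1 ∨ 0 < orient a0 a1 a2 ∨ 0 < orient a1 a2 a3 := by
  have e1 : orient a4 a0 a1 = orient v a4 a0 + orient v a0 a1 - orient v a4 a1 := by
    simp only [orient, dt, Prod.fst_sub, Prod.snd_sub]; ring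
  have e2 : orient a0 a1 a2 = orient v a0 a1 + orient v a1 a2 - orient v a0 a2 := by
    simp only [orient, dt, Prod.fst_sub, Prod.snd_sub]; ring
  have e3 : orient a1 a2 a3 = orient v a1 a2 + orient v a2 a3 - orient v a1 a3 := by
    simp only [orient, dt, Prod.fst_sub, Prod.snd_sub]; ring
  rw [e1, e2, e3]
  refine alg5 (D42 := orient v a4 a2) (D03 := orient v a0 a3) h0 h1 h2 h3 h4 hE1 ?_ ?_ ?_
  · simp only [orient, dt, Prod.fst_sub, Prod.snd_sub]; ring
  · simp only [orient, dt, Prod.fst_sub, Prod.snd_sub]; ring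
  · simp only [orient, dt, Prod.fst_sub, Prod.snd_sub]; ring

/-- an ear with a positive determinant gives a fan from a neighbour of the ear -/
theorem ear (v a0 a1 a2 a3 a4 : Pt) (h1 : 0 < orient v a1 a2)
    (h2 : 0 < orient v a2 a3) (h3 : 0 < orient v a3 a4)
    (hE : 0 < orient v a4 a1) (ht : 0 < orient a4 a0 a1) :
    (0 < orient a4 a0 a1 ∧ 0 < orient a4 a1 a2 ∧ 0 < orient a4 a2 a3) ∨
    (0 < orient a1 a2 a3 ∧ 0 < orient a1 a3 a4 ∧ 0 < orient a1 a4 a0) := by
  rcases quad v a4 a1 a2 a3 hE h1 h2 h3 with ⟨e1, e2⟩ | ⟨e1, e2⟩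
  · exact Or.inl ⟨ht, e1, e2⟩
  · refine Or.inr ⟨e1, e2, ?_⟩
    rw [orient_rot]
    exact ht

/-! ### The contraction -/

section

variable {F : Finset Tri} {o : Tri} {p : ℕ → Pt} {v : ℕ}

theorem posv (hR : Real F o p) (hv : ¬ isV v o) {x y : ℕ} (h : (v, x, y) ∈ F) :
    0 < orient (p v) (p x) (p y) := by
  refine hR.pos _ h fun hr => hv ?_
  rcases mem_rots.1 hr with e | e | e
  · left; exact congrArg (fun t : Tri => t.1) e
  · right; left; exact congrArg (fun t : Tri => t.1) e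
  · right; right; exact congrArg (fun t : Tri => t.1) e

theorem closed (hS : Sph F) (X : Set ℕ) (hX : ∀ x y, x ∈ X → (v, x, y) ∈ F → y ∈ X) {a : ℕ}
    (ha : a ∈ X) (hva : Adj F v a) : ∀ b, Adj F v b → b ∈ X := by
  intro b hb
  have := hS.link v a b hva hb
  induction this with
  | refl => exact ha
  | @tail x y _ hxy ih => exact hX x y (ih ⟨y, hxy⟩) hxy

theorem core (hS : Sph F) (hR : Real F o p) (hv : ¬ isV v o) {b : ℕ} (hb : Adj F v b)
    (hfan : ∀ x y, (v, x, y) ∈ F → x ≠ b → y ≠ b → 0 < orient (p b) (p x) (p y))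
    (hadj : ∀ w, Adj F v w → Adj F b w → (v, b, w) ∈ F ∨ (b, v, w) ∈ F) :
    ∃ x, Ok F v x ∧ Real (contr F v x) o p := by
  have hF := hS.toPre
  refine ⟨b, ⟨hb, hadj, ?_⟩, ?_⟩
  · rintro w ⟨h1, h2⟩
    have e1 := posv hR hv h1
    have e2 := posv hR hv (hF.rot _ _ _ h2)
    have e3 : orient (p v) (p w) (p b) = - orient (p v) (p b) (p w) := by
      simp only [orient, dt, Prod.fst_sub, Prod.snd_sub]; ring
    linarith
  · have hb' : b ≠ v := (hF.adj_ne hb).symm
    have hsub : ∀ x, x ≠ v → sub1 v b x = x := fun x hx => if_neg hx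
    have hsubv : sub1 v b v = b := if_pos rfl
    obtain ⟨o1, o2, o3⟩ := o
    refine ⟨?_, hR.neg, ?_⟩
    · refine mem_quo.2 ⟨hF.nd hR.mem, _, hR.mem, ?_⟩
      have h1 : o1 ≠ v := fun e => hv (Or.inl e.symm)
      have h2 : o2 ≠ v := fun e => hv (Or.inr (Or.inl e.symm))
      have h3 : o3 ≠ v := fun e => hv (Or.inr (Or.inr e.symm))
      simp only [mapT, hsub _ h1, hsub _ h2, hsub _ h3]
    · rintro t ht hto
      obtain ⟨hnd, ⟨x, y, z⟩, ht', rfl⟩ := mem_quo.1 ht
      obtain ⟨n1, n2, n3⟩ := hF.nd ht'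
      simp only [mapT, Nd] at hnd hto ⊢
      by_cases hx : x = v
      · subst hx
        rw [hsubv, hsub y n1.symm, hsub z n3] at hnd ⊢
        exact hfan y z ht' hnd.1.symm hnd.2.2
      · by_cases hy : y = v
        · subst hy
          rw [hsubv, hsub x n1, hsub z n2.symm] at hnd ⊢
          rw [orient_rot]
          exact hfan z x (hF.rot _ _ _ ht') hnd.2.1.symm hnd.1
        · by_cases hz : z = v
          · subst hz
            rw [hsubv, hsub x n3.symm, hsub y n2] at hnd ⊢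
            rw [orient_rot, orient_rot]
            exact hfan x y (hF.rot2 ht') hnd.2.2.symm hnd.2.1
          · rw [hsub x hx, hsub y hy, hsub z hz] at hto ⊢
            exact hR.pos _ ht' hto

/-- a quadrilateral star -/
structure Cy4 (F : Finset Tri) (v a0 a1 a2 a3 : ℕ) : Prop where
  f0 : (v, a0, a1) ∈ F
  f1 : (v, a1, a2) ∈ F
  f2 : (v, a2, a3) ∈ F
  f3 : (v, a3, a0) ∈ F
  nb : ∀ w, Adj F v w → w = a0 ∨ w = a1 ∨ w = a2 ∨ w = a3

/-- a pentagonal star -/
structure Cy5 (F : Finset Tri) (v a0 a1 a2 a3 a4 : ℕ) : Prop where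
  f0 : (v, a0, a1) ∈ F
  f1 : (v, a1, a2) ∈ F
  f2 : (v, a2, a3) ∈ F
  f3 : (v, a3, a4) ∈ F
  f4 : (v, a4, a0) ∈ F
  nb : ∀ w, Adj F v w → w = a0 ∨ w = a1 ∨ w = a2 ∨ w = a3 ∨ w = a4

theorem Cy4.rot {a0 a1 a2 a3 : ℕ} (h : Cy4 F v a0 a1 a2 a3) : Cy4 F v a1 a2 a3 a0 :=
  ⟨h.f1, h.f2, h.f3, h.f0, fun w hw => by rcases h.nb w hw with e | e | e | e <;> simp [e]⟩

theorem Cy5.rot {a0 a1 a2 a3 a4 : ℕ} (h : Cy5 F v a0 a1 a2 a3 a4) : Cy5 F v a1 a2 a3 a4 a0 :=
  ⟨h.f1, h.f2, h.f3, h.f4, h.f0, fun w hw => by rcases h.nb w hw with e | e | e | e | e <;> simp [e]⟩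

/-- no edge enters the angle of a face at `v` (all three corners) -/
theorem g4' (h4 : G4Stmt) (hS : Sph F) (hR : Real F o p) (hv : ¬ isV v o) {x y d : ℕ}
    (hf : (v, x, y) ∈ F) (hd : Adj F x d) (hdy : d ≠ y) (hdv : d ≠ v)
    (h1 : 0 ≤ orient (p x) (p y) (p d)) (h2 : 0 ≤ orient (p x) (p d) (p v)) : False := by
  refine h4 F o p hS.toPre hR x y v d (hS.rot _ _ _ hf) ?_ hd hdy hdv ⟨h1, h2⟩
  intro hr
  apply hv
  rcases mem_rots.1 hr with e | e | e
  · right; right; exact congrArg (fun t : Tri => t.2.2) e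
  · left; exact congrArg (fun t : Tri => t.2.2) e
  · right; left; exact congrArg (fun t : Tri => t.2.2) e

theorem g4'' (h4 : G4Stmt) (hS : Sph F) (hR : Real F o p) (hv : ¬ isV v o) {x y d : ℕ}
    (hf : (v, x, y) ∈ F) (hd : Adj F y d) (hdx : d ≠ x) (hdv : d ≠ v)
    (h1 : 0 ≤ orient (p y) (p v) (p d)) (h2 : 0 ≤ orient (p y) (p d) (p x)) : False := by
  refine h4 F o p hS.toPre hR y v x d (hS.toPre.rot2 hf) ?_ hd hdv hdx ⟨h1, h2⟩
  intro hr
  apply hv
  rcases mem_rots.1 hr with e | e | e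
  · right; left; exact congrArg (fun t : Tri => t.2.1) e
  · right; right; exact congrArg (fun t : Tri => t.2.1) e
  · left; exact congrArg (fun t : Tri => t.2.1) e

theorem fan4 (h4 : G4Stmt) (hS : Sph F) (hR : Real F o p) (hv : ¬ isV v o) {a0 a1 a2 a3 : ℕ}
    (hc : Cy4 F v a0 a1 a2 a3) (h1 : 0 < orient (p a0) (p a1) (p a2))
    (h2 : 0 < orient (p a0) (p a2) (p a3)) : ∃ x, Ok F v x ∧ Real (contr F v x) o p := by
  have hF := hS.toPre
  have n01 := (hF.nd hc.f0).2.1
  have n12 := (hF.nd hc.f1).2.1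
  have n23 := (hF.nd hc.f2).2.1
  have n30 := (hF.nd hc.f3).2.1
  have n02 : a2 ≠ a0 := by
    intro e
    rw [e] at h1
    have : orient (p a0) (p a1) (p a0) = 0 := by
      simp only [orient, dt, Prod.fst_sub, Prod.snd_sub]; ring
    linarith
  refine core hS hR hv ⟨_, hc.f0⟩ ?_ ?_
  · intro x y hxy hx hy
    rcases hc.nb x ⟨_, hxy⟩ with rfl | rfl | rfl | rfl
    · exact absurd rfl hx
    · have := hF.uniq _ _ _ _ hxy hc.f1
      subst this; exact h1
    · have := hF.uniq _ _ _ _ hxy hc.f2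
      subst this; exact h2
    · have := hF.uniq _ _ _ _ hxy hc.f3
      exact absurd this hy
  · intro w hvw hbw
    rcases hc.nb w hvw with rfl | rfl | rfl | rfl
    · exact absurd rfl (hF.adj_ne hbw)
    · exact Or.inl hc.f0
    · exfalso
      have hv2 : w ≠ v := (hF.adj_ne hvw).symm
      rcases le_total 0 (orient (p a0) (p w) (p v)) with h | h
      · exact g4' h4 hS hR hv hc.f0 hbw n12.symm hv2 h1.le h
      · have e : orient (p a0) (p v) (p w) = - orient (p a0) (p w) (p v) := by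
          simp only [orient, dt, Prod.fst_sub, Prod.snd_sub]; ring
        exact g4'' h4 hS hR hv hc.f3 hbw n23 hv2 (by linarith) h2.le
    · exact Or.inr (hF.rot2 hc.f3)

theorem fan5 (h4 : G4Stmt) (hS : Sph F) (hR : Real F o p) (hv : ¬ isV v o)
    {a0 a1 a2 a3 a4 : ℕ} (hc : Cy5 F v a0 a1 a2 a3 a4) (h1 : 0 < orient (p a0) (p a1) (p a2))
    (h2 : 0 < orient (p a0) (p a2) (p a3)) (h3 : 0 < orient (p a0) (p a3) (p a4))
    (hD : 0 < orient (p v) (p a0) (p a2) ∨ 0 < orient (p v) (p a3) (p a0)) :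
    ∃ x, Ok F v x ∧ Real (contr F v x) o p := by
  have hF := hS.toPre
  have n01 := (hF.nd hc.f0).2.1
  have n12 := (hF.nd hc.f1).2.1
  have n23 := (hF.nd hc.f2).2.1
  have n34 := (hF.nd hc.f3).2.1
  have n40 := (hF.nd hc.f4).2.1
  have s0 := posv hR hv hc.f0
  have s1 := posv hR hv hc.f1
  have s2 := posv hR hv hc.f2
  have s3 := posv hR hv hc.f3
  have s4 := posv hR hv hc.f4
  have n31 : a3 ≠ a1 := by
    intro e
    rw [e] at s2
    have : orient (p v) (p a2) (p a1) = - orient (p v) (p a1) (p a2) := by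
      simp only [orient, dt, Prod.fst_sub, Prod.snd_sub]; ring
    linarith
  have n42 : a4 ≠ a2 := by
    intro e
    rw [e] at s3
    have : orient (p v) (p a3) (p a2) = - orient (p v) (p a2) (p a3) := by
      simp only [orient, dt, Prod.fst_sub, Prod.snd_sub]; ring
    linarith
  -- Plücker relations at a0
  have P1 : orient (p a0) (p a1) (p a2) * orient (p a0) (p a3) (p v) -
      orient (p a0) (p a1) (p a3) * orient (p a0) (p a2) (p v) +
      orient (p a0) (p a1) (p v) * orient (p a0) (p a2) (p a3) = 0 := by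
    simp only [orient, dt, Prod.fst_sub, Prod.snd_sub]; ring
  have P2 : orient (p a0) (p a2) (p a3) * orient (p a0) (p v) (p a4) -
      orient (p a0) (p a2) (p a4) * orient (p a0) (p v) (p a3) +
      orient (p a0) (p v) (p a2) * orient (p a0) (p a3) (p a4) = 0 := by
    simp only [orient, dt, Prod.fst_sub, Prod.snd_sub]; ring
  have sw2 : orient (p a0) (p v) (p a2) = - orient (p a0) (p a2) (p v) := by
    simp only [orient, dt, Prod.fst_sub, Prod.snd_sub]; ring
  have sw3 : orient (p a0) (p v) (p a3) = - orient (p a0) (p a3) (p v) := by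
    simp only [orient, dt, Prod.fst_sub, Prod.snd_sub]; ring
  have r1 : orient (p v) (p a0) (p a1) = orient (p a0) (p a1) (p v) := orient_rot _ _ _
  have r2 : orient (p v) (p a0) (p a2) = orient (p a0) (p a2) (p v) := orient_rot _ _ _
  have r3 : orient (p v) (p a3) (p a0) = orient (p a0) (p v) (p a3) := by
    rw [orient_rot, orient_rot]
  have r4 : orient (p v) (p a4) (p a0) = orient (p a0) (p v) (p a4) := by
    rw [orient_rot, orient_rot]
  -- a0 is adjacent neither to a2 nor to a3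
  have key2 : Adj F v a2 → ¬ Adj F a0 a2 := by
    intro hv2 hadj
    have hv2' : a2 ≠ v := (hF.adj_ne hv2).symm
    rcases le_or_gt 0 (orient (p a0) (p a2) (p v)) with h | h
    · exact g4' h4 hS hR hv hc.f0 hadj n12.symm hv2' h1.le h
    · rcases hD with hD | hD
      · linarith
      · -- v is on the left of both a2 and a3
        refine g4'' h4 hS hR hv hc.f4 hadj n42.symm hv2' (by linarith) ?_
        by_contra hcon
        rw [not_le] at hcon
        nlinarith [mul_pos h2 (show 0 < orient (p a0) (p v) (p a4) by linarith),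
          mul_pos (show 0 < orient (p a0) (p v) (p a2) by linarith) h3,
          mul_pos (neg_pos.2 hcon) (show 0 < orient (p a0) (p v) (p a3) by linarith)]
  have key3 : Adj F v a3 → ¬ Adj F a0 a3 := by
    intro hv3 hadj
    have hv3' : a3 ≠ v := (hF.adj_ne hv3).symm
    rcases le_or_gt 0 (orient (p a0) (p v) (p a3)) with h | h
    · exact g4'' h4 hS hR hv hc.f4 hadj n34 hv3' h h3.le
    · rcases hD with hD | hD
      · refine g4' h4 hS hR hv hc.f0 hadj n31 hv3' ?_ (by linarith)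
        by_contra hcon
        rw [not_le] at hcon
        nlinarith [mul_pos h1 (show 0 < orient (p a0) (p a3) (p v) by linarith),
          mul_pos (show 0 < orient (p a0) (p a1) (p v) by linarith) h2,
          mul_pos (neg_pos.2 hcon) (show 0 < orient (p a0) (p a2) (p v) by linarith)]
      · linarith
  refine core hS hR hv ⟨_, hc.f0⟩ ?_ ?_
  · intro x y hxy hx hy
    rcases hc.nb x ⟨_, hxy⟩ with rfl | rfl | rfl | rfl | rfl
    · exact absurd rfl hx
    · have := hF.uniq _ _ _ _ hxy hc.f1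
      subst this; exact h1
    · have := hF.uniq _ _ _ _ hxy hc.f2
      subst this; exact h2
    · have := hF.uniq _ _ _ _ hxy hc.f3
      subst this; exact h3
    · have := hF.uniq _ _ _ _ hxy hc.f4
      exact absurd this hy
  · intro w hvw hbw
    rcases hc.nb w hvw with rfl | rfl | rfl | rfl | rfl
    · exact absurd rfl (hF.adj_ne hbw)
    · exact Or.inl hc.f0
    · exact absurd hbw (key2 hvw)
    · exact absurd hbw (key3 hvw)
    · exact Or.inr (hF.rot2 hc.f4)

theorem ear5 (h4 : G4Stmt) (hS : Sph F) (hR : Real F o p) (hv : ¬ isV v o)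
    {a0 a1 a2 a3 a4 : ℕ} (hc : Cy5 F v a0 a1 a2 a3 a4) (hE : 0 < orient (p v) (p a4) (p a1))
    (ht : 0 < orient (p a4) (p a0) (p a1)) : ∃ x, Ok F v x ∧ Real (contr F v x) o p := by
  have s1 := posv hR hv hc.f1
  have s2 := posv hR hv hc.f2
  have s3 := posv hR hv hc.f3
  rcases ear (p v) (p a0) (p a1) (p a2) (p a3) (p a4) s1 s2 s3 hE ht with
    ⟨e1, e2, e3⟩ | ⟨e1, e2, e3⟩
  · exact fan5 h4 hS hR hv hc.rot.rot.rot.rot e1 e2 e3 (Or.inl hE)
  · exact fan5 h4 hS hR hv hc.rot e1 e2 e3 (Or.inr hE)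

theorem three5 (h4 : G4Stmt) (hS : Sph F) (hR : Real F o p) (hv : ¬ isV v o)
    {a0 a1 a2 a3 a4 : ℕ} (hc : Cy5 F v a0 a1 a2 a3 a4) (hE0 : 0 < orient (p v) (p a4) (p a1))
    (hE1 : 0 < orient (p v) (p a0) (p a2)) (hE2 : 0 < orient (p v) (p a1) (p a3)) :
    ∃ x, Ok F v x ∧ Real (contr F v x) o p := by
  rcases pent (p v) (p a0) (p a1) (p a2) (p a3) (p a4) (posv hR hv hc.f0) (posv hR hv hc.f1)
    (posv hR hv hc.f2) (posv hR hv hc.f3) (posv hR hv hc.f4) hE1 with h | h | h
  · exact ear5 h4 hS hR hv hc hE0 h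
  · exact ear5 h4 hS hR hv hc.rot hE1 h
  · exact ear5 h4 hS hR hv hc.rot.rot hE2 h

theorem g4v (h4 : G4Stmt) (hS : Sph F) (hR : Real F o p) (hv : ¬ isV v o)
    {x y d : ℕ} (hf : (v, x, y) ∈ F) (hd : Adj F v d) (hdx : d ≠ x) (hdy : d ≠ y) :
    0 < orient (p v) (p d) (p x) ∨ 0 < orient (p v) (p y) (p d) := by
  have h := h4 F o p hS.toPre hR v x y d hf (fun hr => hv (by
    rcases mem_rots.1 hr with e | e | e
    · left; exact congrArg (fun t : Tri => t.1) e
    · right; left; exact congrArg (fun t : Tri => t.1) e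
    · right; right; exact congrArg (fun t : Tri => t.1) e)) hd hdx hdy
  have e1 : dt (p x - p v) (p d - p v) = - orient (p v) (p d) (p x) := by
    simp only [orient, dt, Prod.fst_sub, Prod.snd_sub]; ring
  have e2 : dt (p d - p v) (p y - p v) = - orient (p v) (p y) (p d) := by
    simp only [orient, dt, Prod.fst_sub, Prod.snd_sub]; ring
  rw [e1, e2] at h
  by_contra hcon
  rw [not_or, not_lt, not_lt] at hcon
  exact h ⟨by linarith, by linarith⟩

theorem five (h4 : G4Stmt) (hS : Sph F) (hR : Real F o p) (hv : ¬ isV v o)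
    {a0 a1 a2 a3 a4 : ℕ} (hc : Cy5 F v a0 a1 a2 a3 a4) :
    ∃ x, Ok F v x ∧ Real (contr F v x) o p := by
  have hF := hS.toPre
  -- two non-adjacent ears are not both non-positive
  have hno : ∀ {a0 a1 a2 a3 a4 : ℕ}, Cy5 F v a0 a1 a2 a3 a4 →
      0 < orient (p v) (p a3) (p a0) ∨ 0 < orient (p v) (p a1) (p a3) := by
    intro a0 a1 a2 a3 a4 hc
    have s0 := posv hR hv hc.f0
    have s1 := posv hR hv hc.f1
    have s2 := posv hR hv hc.f2
    have s3 := posv hR hv hc.f3
    have s4 := posv hR hv hc.f4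
    have n30 : a3 ≠ a0 := by
      intro e
      rw [e] at s3
      have : orient (p v) (p a0) (p a4) = - orient (p v) (p a4) (p a0) := by
        simp only [orient, dt, Prod.fst_sub, Prod.snd_sub]; ring
      linarith
    have n31 : a3 ≠ a1 := by
      intro e
      rw [e] at s2
      have : orient (p v) (p a2) (p a1) = - orient (p v) (p a1) (p a2) := by
        simp only [orient, dt, Prod.fst_sub, Prod.snd_sub]; ring
      linarith
    exact g4v h4 hS hR hv hc.f0 ⟨_, hc.f3⟩ n30 n31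
  have c1 := hc.rot
  have c2 := c1.rot
  have c3 := c2.rot
  have c4 := c3.rot
  -- E k := orient v a(k-1) a(k+1)
  have h0 := hno hc
  have h1 := hno c1
  have h2 := hno c2
  have h3 := hno c3
  have h4' := hno c4
  by_cases E0 : 0 < orient (p v) (p a4) (p a1)
  · by_cases E1 : 0 < orient (p v) (p a0) (p a2)
    · by_cases E2 : 0 < orient (p v) (p a1) (p a3)
      · exact three5 h4 hS hR hv hc E0 E1 E2
      · -- E2 ≤ 0: E4 > 0
        have E4 : 0 < orient (p v) (p a3) (p a0) := h0.resolve_right E2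
        exact three5 h4 hS hR hv c4 E4 E0 E1
    · -- E1 ≤ 0: E3, E4 > 0
      have E4 : 0 < orient (p v) (p a3) (p a0) := h2.resolve_left E1
      have E3 : 0 < orient (p v) (p a2) (p a4) := h4'.resolve_right E1
      exact three5 h4 hS hR hv c3 E3 E4 E0
  · have E3 : 0 < orient (p v) (p a2) (p a4) := h1.resolve_left E0
    have E2 : 0 < orient (p v) (p a1) (p a3) := h3.resolve_right E0
    by_cases E1 : 0 < orient (p v) (p a0) (p a2)
    · exact three5 h4 hS hR hv c1 E1 E2 E3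
    · have E4 : 0 < orient (p v) (p a3) (p a0) := h2.resolve_left E1
      exact three5 h4 hS hR hv c2 E2 E3 E4

theorem g8 (h4 : G4Stmt) : G8Stmt := by
  classical
  intro F o p v hS hR hvF hv hdeg
  have hF := hS.toPre
  obtain ⟨a0, a1, h0⟩ := mem_verts.1 hvF
  have next : ∀ {x y : ℕ}, (v, x, y) ∈ F → ∃ z, (v, y, z) ∈ F := by
    intro x y h
    exact hF.adj_symm ⟨x, hF.rot2 h |> fun h => h⟩
  have inj : ∀ {x x' y : ℕ}, (v, x, y) ∈ F → (v, x', y) ∈ F → x = x' := by
    intro x x' y h h'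
    exact hF.uniq _ _ _ _ (hF.rot2 h) (hF.rot2 h')
  have two : ∀ {x y z : ℕ}, (v, x, y) ∈ F → (v, y, z) ∈ F → z ≠ x := by
    rintro x y z h h' rfl
    have e1 := posv hR hv h
    have e2 := posv hR hv h'
    have : orient (p v) (p y) (p z) = - orient (p v) (p z) (p y) := by
      simp only [orient, dt, Prod.fst_sub, Prod.snd_sub]; ring
    linarith
  obtain ⟨a2, h1⟩ := next h0
  obtain ⟨a3, h2⟩ := next h1
  by_cases e3 : a3 = a0
  · subst e3
    have nb : ∀ w, Adj F v w → w = a3 ∨ w = a1 ∨ w = a2 := by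
      refine closed hS (X := {w | w = a3 ∨ w = a1 ∨ w = a2}) ?_ (Or.inl rfl) ⟨_, h0⟩
      rintro x y (rfl | rfl | rfl) hxy
      · exact Or.inr (Or.inl (hF.uniq _ _ _ _ hxy h0))
      · exact Or.inr (Or.inr (hF.uniq _ _ _ _ hxy h1))
      · exact Or.inl (hF.uniq _ _ _ _ hxy h2)
    refine core hS hR hv ⟨_, h0⟩ ?_ ?_
    · intro x y hxy hx hy
      rcases nb x ⟨_, hxy⟩ with rfl | rfl | rfl
      · exact absurd rfl hx
      · have := hF.uniq _ _ _ _ hxy h1
        subst this
        have s0 := posv hR hv h0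
        have s1 := posv hR hv h1
        have s2 := posv hR hv h2
        have : orient (p a3) (p x) (p y) = orient (p v) (p a3) (p x) + orient (p v) (p x) (p y) +
            orient (p v) (p y) (p a3) := by
          simp only [orient, dt, Prod.fst_sub, Prod.snd_sub]; ring
        linarith
      · exact absurd (hF.uniq _ _ _ _ hxy h2) hy
    · intro w hvw hbw
      rcases nb w hvw with rfl | rfl | rfl
      · exact absurd rfl (hF.adj_ne hbw)
      · exact Or.inl h0
      · exact Or.inr (hF.rot2 h2)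
  obtain ⟨a4, h3⟩ := next h2
  by_cases e4 : a4 = a0
  · subst e4
    have hc : Cy4 F v a4 a1 a2 a3 := by
      refine ⟨h0, h1, h2, h3, ?_⟩
      refine closed hS (X := {w | w = a4 ∨ w = a1 ∨ w = a2 ∨ w = a3}) ?_ (Or.inl rfl) ⟨_, h0⟩
      rintro x y (rfl | rfl | rfl | rfl) hxy
      · exact Or.inr (Or.inl (hF.uniq _ _ _ _ hxy h0))
      · exact Or.inr (Or.inr (Or.inl (hF.uniq _ _ _ _ hxy h1)))
      · exact Or.inr (Or.inr (Or.inr (hF.uniq _ _ _ _ hxy h2)))
      · exact Or.inl (hF.uniq _ _ _ _ hxy h3)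
    rcases quad (p v) (p a4) (p a1) (p a2) (p a3) (posv hR hv h0) (posv hR hv h1)
      (posv hR hv h2) (posv hR hv h3) with ⟨q1, q2⟩ | ⟨q1, q2⟩
    · exact fan4 h4 hS hR hv hc q1 q2
    · exact fan4 h4 hS hR hv hc.rot q1 q2
  obtain ⟨a5, h4'⟩ := next h3
  by_cases e5 : a5 = a0
  · subst e5
    have hc : Cy5 F v a5 a1 a2 a3 a4 := by
      refine ⟨h0, h1, h2, h3, h4', ?_⟩
      refine closed hS (X := {w | w = a5 ∨ w = a1 ∨ w = a2 ∨ w = a3 ∨ w = a4}) ?_ (Or.inl rfl)
        ⟨_, h0⟩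
      rintro x y (rfl | rfl | rfl | rfl | rfl) hxy
      · exact Or.inr (Or.inl (hF.uniq _ _ _ _ hxy h0))
      · exact Or.inr (Or.inr (Or.inl (hF.uniq _ _ _ _ hxy h1)))
      · exact Or.inr (Or.inr (Or.inr (Or.inl (hF.uniq _ _ _ _ hxy h2))))
      · exact Or.inr (Or.inr (Or.inr (Or.inr (hF.uniq _ _ _ _ hxy h3))))
      · exact Or.inl (hF.uniq _ _ _ _ hxy h4')
    exact five h4 hS hR hv hc
  · -- six different neighbours
    exfalso
    obtain ⟨a6, h5⟩ := next h4'
    have n01 := (hF.nd h0).2.1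
    have n12 := (hF.nd h1).2.1
    have n23 := (hF.nd h2).2.1
    have n34 := (hF.nd h3).2.1
    have n45 := (hF.nd h4').2.1
    have n02 := two h0 h1
    have n13 := two h1 h2
    have n24 := two h2 h3
    have n35 := two h3 h4'
    have n14 : a4 ≠ a1 := by
      rintro rfl; exact e3 (inj h3 h0)
    have n25 : a5 ≠ a2 := by
      rintro rfl; exact n14 (inj h4' h1)
    have n15 : a5 ≠ a1 := by
      rintro rfl; exact e4 (inj h4' h0)
    have hsub : ({(v, a0, a1), (v, a1, a2), (v, a2, a3), (v, a3, a4), (v, a4, a5), (v, a5, a6)} :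
        Finset Tri) ⊆ F.filter (fun t => t.1 = v) := by
      intro t ht
      simp only [Finset.mem_insert, Finset.mem_singleton] at ht
      rw [Finset.mem_filter]
      rcases ht with rfl | rfl | rfl | rfl | rfl | rfl
      · exact ⟨h0, rfl⟩
      · exact ⟨h1, rfl⟩
      · exact ⟨h2, rfl⟩
      · exact ⟨h3, rfl⟩
      · exact ⟨h4', rfl⟩
      · exact ⟨h5, rfl⟩
    have hcard : ({(v, a0, a1), (v, a1, a2), (v, a2, a3), (v, a3, a4), (v, a4, a5), (v, a5, a6)} :
        Finset Tri).card = 6 := by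
      have m : ∀ {x y : ℕ} {z w : ℕ}, x ≠ y → ((v, x, z) : Tri) ≠ (v, y, w) := by
        intro x y z w hxy he
        exact hxy (congrArg (fun t : Tri => t.2.1) he)
      rw [Finset.card_insert_of_notMem, Finset.card_insert_of_notMem,
        Finset.card_insert_of_notMem, Finset.card_insert_of_notMem,
        Finset.card_insert_of_notMem, Finset.card_singleton]
      all_goals
        simp only [Finset.mem_insert, Finset.mem_singleton, not_or]
      · exact m n45
      · exact ⟨m n34, m n35.symm⟩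
      · exact ⟨m n23, m n24.symm, m n25.symm⟩
      · exact ⟨m n12, m n13.symm, m n14.symm, m n15.symm⟩
      · exact ⟨m n01, m n02.symm, m (Ne.symm e3), m (Ne.symm e4), m (Ne.symm e5)⟩
    have := Finset.card_le_card hsub
    unfold deg at hdeg
    omega

end

end Pool.Agent.H3.RCR.G8
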